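import Pool.Agent.helper52.WP.SpecB
import Pool.Agent.helper78.GR.ENG

/-!
# wp:EGR (helper98): the energy inequality on `ball 0 R`
-/

set_option autoImplicit false

open Complex Metric Set Filter Topology MeasureTheory
open V3S (UF)
open WP
open PPS (pre TT fd)
open XPS (Df er)

noncomputable section

namespace WPB

open GR in
theorem EGR (hM : PPS.MCV_stmt) : EGR_stmt := by
  intro n c R b ε hn hc hR hb hfin hε her
  have hdeg : 1 ≤ (fp n c).natDegree := by
    unfold fp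
    rw [Polynomial.natDegree_X_pow_add_C]
    omega
  have hev : ∀ z, (fp n c).eval z = z ^ n + c := by
    intro z
    unfold fp
    simp
  have h2 : Measurable (TT (fp n c) b) := PPS.MI_TT (fp n c) hdeg b hb
  have hA : Measurable fun z => ((pre (fp n c) z).map fun y => ‖b y‖ / ‖fd (fp n c) y‖ ^ 2).sum :=
    (PPS.MS (fp n c) hdeg).2.1 (fun y => ‖b y‖ / ‖fd (fp n c) y‖ ^ 2)
      (hb.norm.div ((PPS.MI_poly (fp n c).derivative).norm.pow_const 2))
  have hDf0 : ∀ z, 0 ≤ Df (fp n c) b z := by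
    intro z
    unfold Df
    have h4 := PPS.MI_pos (pre (fp n c) z) (fp n c) b
    unfold TT
    linarith
  have hDfm : Measurable (Df (fp n c) b) := hA.sub h2.norm
  have herm : Measurable (er (fp n c) b) := hb.sub h2
  -- the preimage of the ball
  have hsub : {y : ℂ | (fp n c).eval y ∈ ball (0 : ℂ) R} ⊆ ball (0 : ℂ) R := by
    intro y hy
    rw [Set.mem_ofPred_eq, hev, mem_ball_zero_iff] at hy
    rw [mem_ball_zero_iff]
    by_contra hcon
    push Not at hcon
    have h5 : ‖y ^ n‖ ≤ ‖y ^ n + c‖ + ‖c‖ := by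
      calc ‖y ^ n‖ = ‖(y ^ n + c) - c‖ := by rw [add_sub_cancel_right]
        _ ≤ ‖y ^ n + c‖ + ‖c‖ := norm_sub_le _ _
    rw [norm_pow] at h5
    have h6 : R ^ 2 ≤ ‖y‖ ^ n := by
      calc R ^ 2 ≤ R ^ n := pow_le_pow_right₀ (by linarith) hn
        _ ≤ ‖y‖ ^ n := pow_le_pow_left₀ (by linarith) hcon n
    nlinarith
  have hT : ∫⁻ z in ball (0 : ℂ) R, ENNReal.ofReal
      ((pre (fp n c) z).map fun y => ‖b y‖ / ‖fd (fp n c) y‖ ^ 2).sum ≤
      ∫⁻ z in ball (0 : ℂ) R, ENNReal.ofReal ‖b z‖ := by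
    calc ∫⁻ z in ball (0 : ℂ) R, ENNReal.ofReal
          ((pre (fp n c) z).map fun y => ‖b y‖ / ‖fd (fp n c) y‖ ^ 2).sum
        ≤ ∫⁻ z in ball (0 : ℂ) R, ((pre (fp n c) z).map fun y =>
            ENNReal.ofReal ‖b y‖ / ENNReal.ofReal (‖fd (fp n c) y‖ ^ 2)).sum :=
          lintegral_mono fun z => GR.ENG_sum (pre (fp n c) z) (fp n c) b
      _ = ∫⁻ y in {y : ℂ | (fp n c).eval y ∈ ball (0 : ℂ) R}, ENNReal.ofReal ‖b y‖ :=
          hM (fp n c) hdeg (fun y => ENNReal.ofReal ‖b y‖) _ hb.norm.ennreal_ofReal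
            measurableSet_ball
      _ ≤ ∫⁻ z in ball (0 : ℂ) R, ENNReal.ofReal ‖b z‖ := lintegral_mono_set hsub
  have hD : ∫⁻ z in ball (0 : ℂ) R, ENNReal.ofReal (Df (fp n c) b z) ≤ ENNReal.ofReal ε := by
    refine le_trans ?_ her
    have h5 : (∫⁻ z in ball (0 : ℂ) R, ENNReal.ofReal (Df (fp n c) b z)) +
        ∫⁻ z in ball (0 : ℂ) R, ENNReal.ofReal ‖b z‖ ≤
        (∫⁻ z in ball (0 : ℂ) R, ENNReal.ofReal ‖er (fp n c) b z‖) +
        ∫⁻ z in ball (0 : ℂ) R, ENNReal.ofReal ‖b z‖ := by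
      calc (∫⁻ z in ball (0 : ℂ) R, ENNReal.ofReal (Df (fp n c) b z)) +
            ∫⁻ z in ball (0 : ℂ) R, ENNReal.ofReal ‖b z‖
          = ∫⁻ z in ball (0 : ℂ) R, (ENNReal.ofReal (Df (fp n c) b z) + ENNReal.ofReal ‖b z‖) :=
            (lintegral_add_left hDfm.ennreal_ofReal _).symm
        _ ≤ ∫⁻ z in ball (0 : ℂ) R, (ENNReal.ofReal ‖er (fp n c) b z‖ + ENNReal.ofReal
              ((pre (fp n c) z).map fun y => ‖b y‖ / ‖fd (fp n c) y‖ ^ 2).sum) := by
            refine lintegral_mono fun z => ?_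
            show ENNReal.ofReal (Df (fp n c) b z) + ENNReal.ofReal ‖b z‖ ≤
              ENNReal.ofReal ‖er (fp n c) b z‖ + ENNReal.ofReal
              ((pre (fp n c) z).map fun y => ‖b y‖ / ‖fd (fp n c) y‖ ^ 2).sum
            rw [← ENNReal.ofReal_add (hDf0 z) (norm_nonneg _),
              ← ENNReal.ofReal_add (norm_nonneg _) (GR.ENG_nonneg _ _ _)]
            apply ENNReal.ofReal_le_ofReal
            have h6 : ‖b z‖ ≤ ‖er (fp n c) b z‖ + ‖TT (fp n c) b z‖ := by
              calc ‖b z‖ = ‖er (fp n c) b z + TT (fp n c) b z‖ := by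
                    unfold er
                    rw [sub_add_cancel]
                _ ≤ _ := norm_add_le _ _
            unfold Df
            linarith
        _ = (∫⁻ z in ball (0 : ℂ) R, ENNReal.ofReal ‖er (fp n c) b z‖) +
            ∫⁻ z in ball (0 : ℂ) R, ENNReal.ofReal
              ((pre (fp n c) z).map fun y => ‖b y‖ / ‖fd (fp n c) y‖ ^ 2).sum :=
            lintegral_add_left herm.norm.ennreal_ofReal _
        _ ≤ _ := add_le_add le_rfl hT
    exact (ENNReal.add_le_add_iff_right hfin).1 h5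
  refine ⟨fun y hy => ?_, ?_⟩
  · have h9 := hsub (a := y) (by rw [Set.mem_ofPred_eq, mem_ball_zero_iff]; exact hy)
    exact mem_ball_zero_iff.1 h9
  calc ∫⁻ z in ball (0 : ℂ) R, ENNReal.ofReal (Df (fp n c) b z + 2 * ‖er (fp n c) b z‖)
      = ∫⁻ z in ball (0 : ℂ) R, (ENNReal.ofReal (Df (fp n c) b z) +
          2 * ENNReal.ofReal ‖er (fp n c) b z‖) := by
        refine lintegral_congr fun z => ?_
        rw [ENNReal.ofReal_add (hDf0 z) (by positivity), ENNReal.ofReal_mul (by norm_num)]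
        simp
    _ = (∫⁻ z in ball (0 : ℂ) R, ENNReal.ofReal (Df (fp n c) b z)) +
          2 * ∫⁻ z in ball (0 : ℂ) R, ENNReal.ofReal ‖er (fp n c) b z‖ := by
        rw [lintegral_add_left hDfm.ennreal_ofReal,
          lintegral_const_mul _ herm.norm.ennreal_ofReal]
    _ ≤ ENNReal.ofReal ε + 2 * ENNReal.ofReal ε := by gcongr
    _ = ENNReal.ofReal (3 * ε) := by
        rw [ENNReal.ofReal_mul (by norm_num)]
        have : ENNReal.ofReal 3 = 1 + 2 := by norm_num
        rw [this, add_mul, one_mul]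

end WPB
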